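import Pool.Agent.Lib.PlaneTop.Jump
import Pool.Agent.MP_4a6971_al.H83.Schoen
import Mathlib

attribute [-instance] AddQuantale.instAddLeftMono ProperSMul.toContinuousSMul
  LieAdmissibleAlgebra.toModule RightPreLieAlgebra.toModule LeftPreLieAlgebra.toModule
  NonarchimedeanRing.toIsTopologicalRing NonarchimedeanAddGroup.toIsTopologicalAddGroup
  IsTopologicalTorsor.toContinuousSMul RKHS.instFunLike NumberField.to_charZero
  continuousSub_of_discreteTopology AddQuantale.instAddRightMono IdemSemiring.toCanonicallyOrderedAdd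
  Valued.toUniformSpace AlexandrovDiscrete.locallyPathConnectedSpace TotallySeparatedSpace.t2Space
  NonUnitalAlgSemiHomClass.toDistribMulActionSemiHomClass continuousSub_of_indiscreteTopology
  Valued.isTopologicalDivisionRing instCoeHTCTOfCoeTailOfCoeHTC CStarAlgebra.instOrderClosedTopology
  Quantale.instMulRightMono LinearOrderedCommMonoidWithZero.toPosMulStrictMono
  MulAction.toSemigroupAction instCoeHTCOfCoeHeadOfCoeOTC MonTypeEquivalenceMon.monMonoid
  instCoeTOfCoeDep ContinuousSemilinearMapClass.toSemilinearMapClass TestFunctionClass.toDFunLike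
  IsModuleTopology.instSubsingleton ContDiffMapSupportedInClass.toDFunLike
  LieAdmissibleRing.toNonUnitalNonAssocRing

-- part MP_0af9a5_an.Top
section

/-! Plane topology for the glued map: connected super-level sets, no saddles, covering argument,
local surjectivity at a boundary point. -/

namespace Pool.Agent.MP_0af9a5_an

open Set Metric Complex Filter Topology Pool.Agent.Lib.PlaneTop

theorem mem_comp_of_closure {U : Set ℂ} (hU : IsOpen U) {z x : ℂ} (hx : x ∈ U)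
    (hc : x ∈ closure (connectedComponentIn U z)) : x ∈ connectedComponentIn U z := by
  obtain ⟨w, hw1, hw2⟩ := mem_closure_iff.1 hc _ (hU.connectedComponentIn (x := x))
    (mem_connectedComponentIn hx)
  rw [connectedComponentIn_eq hw2, ← connectedComponentIn_eq hw1]
  exact mem_connectedComponentIn hx

theorem comp_unbounded {U : ℂ → ℝ} (hU : Continuous U) (hmax : ∀ z, ¬ IsLocalMax U z) {c : ℝ}
    {z : ℂ} (hz : c < U z) : ¬ Bornology.IsBounded (connectedComponentIn {x | c < U x} z) := by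
  intro hb
  have ho : IsOpen {x | c < U x} := isOpen_lt continuous_const hU
  have hm : z ∈ connectedComponentIn {x | c < U x} z := mem_connectedComponentIn hz
  obtain ⟨x, hx, hM⟩ := hb.isCompact_closure.exists_isMaxOn ⟨z, subset_closure hm⟩ hU.continuousOn
  have h1 : x ∈ connectedComponentIn {x | c < U x} z :=
    mem_comp_of_closure ho (lt_of_lt_of_le hz (hM (subset_closure hm))) hx
  exact hmax x (hM.isLocalMax (mem_of_superset (ho.connectedComponentIn.mem_nhds h1) subset_closure))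

theorem far_preconnected {c R : ℝ} (h : c ≤ R) :
    IsPreconnected {w : ℂ | c < w.re ∧ (R < w.re ∨ R < w.im ∨ w.im < -R)} := by
  have c1 : Convex ℝ {w : ℂ | R < w.re} := convex_halfSpace_re_gt R
  have c2 : Convex ℝ ({w : ℂ | c < w.re} ∩ {w : ℂ | R < w.im}) :=
    (convex_halfSpace_re_gt c).inter (convex_halfSpace_im_gt R)
  have c3 : Convex ℝ ({w : ℂ | c < w.re} ∩ {w : ℂ | w.im < -R}) :=
    (convex_halfSpace_re_gt c).inter (convex_halfSpace_im_lt (-R))
  have u1 := c1.isPreconnected.union (⟨R + 1, R + 1⟩ : ℂ) (by simp)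
    (mem_inter (by simp; linarith) (by simp))
    c2.isPreconnected
  have u2 := u1.union (⟨R + 1, -R - 1⟩ : ℂ) (Or.inl (by simp))
    (mem_inter (by simp; linarith) (by simp))
    c3.isPreconnected
  convert u2 using 1
  ext w
  simp only [mem_ofPred_eq, mem_union, mem_inter_iff]
  constructor
  · rintro ⟨a, b | b | b⟩
    · exact Or.inl (Or.inl b)
    · exact Or.inl (Or.inr ⟨a, b⟩)
    · exact Or.inr ⟨a, b⟩
  · rintro ((b | ⟨a, b⟩) | ⟨a, b⟩)
    · exact ⟨lt_of_le_of_lt h b, Or.inl b⟩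
    · exact ⟨a, Or.inr (Or.inl b)⟩
    · exact ⟨a, Or.inr (Or.inr b)⟩

/-- Super-level sets of a function without local maxima that looks like a coordinate outside the
disc are connected. -/
theorem conn {U : ℂ → ℝ} (hU : Continuous U) (hmax : ∀ z, ¬ IsLocalMax U z) (H : ℂ ≃ₜ ℂ)
    (hH : ∀ z, 1 ≤ ‖z‖ → U z = (H z).re) (c : ℝ) : IsPreconnected {z | c < U z} := by
  obtain ⟨R₀, hR₀⟩ := ((isCompact_closedBall (0 : ℂ) 1).image H.continuous).isBounded.exists_norm_le
  set R := max R₀ |c| with hR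
  have hc1 : c ≤ R := (le_abs_self c).trans (le_max_right _ _)
  have hc2 : -R ≤ c := by linarith [neg_abs_le c, le_max_right R₀ |c|]
  set B := {w : ℂ | c < w.re ∧ (R < w.re ∨ R < w.im ∨ w.im < -R)} with hB
  have out : ∀ z, R < ‖H z‖ → 1 ≤ ‖z‖ := fun z hz => by
    by_contra h
    have := hR₀ _ (mem_image_of_mem H (mem_closedBall_zero_iff.2 (not_le.1 h).le))
    linarith [le_max_left R₀ |c|]
  have hA : IsPreconnected (H ⁻¹' B) := H.isPreconnected_preimage.2 (far_preconnected hc1)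
  have hAS : H ⁻¹' B ⊆ {z | c < U z} := by
    rintro z ⟨a, b⟩
    have : R < ‖H z‖ := by
      rcases b with b | b | b
      · exact b.trans_le (re_le_norm _)
      · exact b.trans_le (im_le_norm _)
      · linarith [abs_im_le_norm (H z), neg_abs_le (H z).im]
    change c < U z
    rwa [hH z (out z this)]
  have a0 : H.symm ⟨R + 1, 0⟩ ∈ H ⁻¹' B := by
    simp only [mem_preimage, Homeomorph.apply_symm_apply, hB, mem_ofPred_eq]
    exact ⟨by linarith only [hc1], Or.inl (by linarith)⟩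
  refine isPreconnected_of_forall (H.symm ⟨R + 1, 0⟩) fun z hz => ⟨connectedComponentIn _ z,
    connectedComponentIn_subset _ _, ?_, mem_connectedComponentIn hz,
    isPreconnected_connectedComponentIn⟩
  obtain ⟨x, hx, hxR⟩ : ∃ x ∈ connectedComponentIn {x | c < U x} z, 2 * R < ‖H x‖ := by
    by_contra h
    push Not at h
    refine comp_unbounded hU hmax hz
      ((H.isCompact_preimage.2 (isCompact_closedBall 0 (2 * R))).isBounded.subset fun x hx => ?_)
    exact mem_closedBall_zero_iff.2 (h x hx)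
  have hR0 : 0 ≤ R := (abs_nonneg c).trans (le_max_right _ _)
  have h1 : c < (H x).re := by
    rw [← hH x (out x (by linarith only [hc1, hc2, hxR]))]
    exact connectedComponentIn_subset {x | c < U x} z hx
  have h2 : x ∈ H ⁻¹' B := by
    refine ⟨h1, ?_⟩
    by_contra h
    push Not at h
    have := norm_le_abs_re_add_abs_im (H x)
    have e1 : |(H x).re| ≤ R := abs_le.2 ⟨by linarith only [hc2, h1], h.1⟩
    have e2 : |(H x).im| ≤ R := abs_le.2 ⟨h.2.2, h.2.1⟩
    linarith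
  rw [connectedComponentIn_eq hx]
  exact hA.subset_connectedComponentIn h2 hAS a0

/-- The shear `y ↦ y + g (re y) i`. -/
noncomputable def shI (g : ℝ → ℝ) (hg : Continuous g) : ℂ ≃ₜ ℂ where
  toFun y := y + g y.re * I
  invFun y := y - g y.re * I
  left_inv y := by simp
  right_inv y := by simp
  continuous_toFun := by fun_prop
  continuous_invFun := by fun_prop

/-- The shear `y ↦ y + g (im y)`. -/
noncomputable def shR (g : ℝ → ℝ) (hg : Continuous g) : ℂ ≃ₜ ℂ where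
  toFun y := y + g y.im
  invFun y := y - g y.im
  left_inv y := by simp
  right_inv y := by simp
  continuous_toFun := by fun_prop
  continuous_invFun := by fun_prop

theorem cross4 {P N : Set ℂ} (hP : IsOpen P) (hN : IsOpen N) (hPc : IsPreconnected P)
    (hNc : IsPreconnected N) (hd : Disjoint P N) (hu : ¬ Bornology.IsBounded N) {z₀ μ : ℂ}
    (hμ : μ ≠ 0) (hzP : z₀ ∉ P) (hzN : z₀ ∉ N) {m κ : ℝ} (hm : 0 ≤ m)
    (h1 : ∀ᶠ t : ℝ in 𝓝[>] 0, z₀ + t * (μ * (m - I)) ∈ P)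
    (h2 : ∀ᶠ t : ℝ in 𝓝[>] 0, z₀ + t * (μ * (m + I)) ∈ P)
    (h3 : ∀ᶠ t : ℝ in 𝓝[>] 0, z₀ + t * μ ∈ N)
    (h4 : ∀ᶠ t : ℝ in 𝓝[>] 0, z₀ + t * (μ * (-1 + κ * I)) ∈ N) : False := by
  obtain ⟨s, hs, hS⟩ := (nhdsGT_basis_Ioc (0 : ℝ)).eventually_iff.1 (h1.and (h2.and (h3.and h4)))
  have hν : -I * μ ≠ 0 := mul_ne_zero (neg_ne_zero.2 I_ne_zero) hμ
  let ψ : ℂ ≃ₜ ℂ := (((shI (fun x => m * |x|) (by fun_prop)).trans
    (shR (fun x => κ * min x 0) (by fun_prop))).trans (Homeomorph.mulLeft₀ _ hν)).trans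
    (Homeomorph.addLeft z₀)
  have eψ : ∀ y : ℂ, ψ y = z₀ + -I * μ * (y + ((m * |y.re| : ℝ) : ℂ) * I +
      ((κ * min (y.im + m * |y.re|) 0 : ℝ) : ℂ)) := fun y => by
    simp only [ψ, shI, ofReal_mul, shR, neg_mul, Homeomorph.trans_apply, Homeomorph.homeomorph_mk_coe, Equiv.coe_fn_mk, add_im, mul_im, mul_re, ofReal_re, ofReal_im, mul_zero, sub_zero, I_im, mul_one, zero_mul, add_zero, I_re, Homeomorph.coe_mulLeft₀, Homeomorph.coe_addLeft]
  have r0 : ∀ t : ℝ, ψ t = z₀ + -I * μ * (t + ((m * |t| : ℝ) : ℂ) * I) := fun t => by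
    rw [eψ, ofReal_re, ofReal_im, zero_add, min_eq_right (mul_nonneg hm (abs_nonneg t))]
    simp
  have r1 : ∀ t : ℝ, |t| ≤ s → ψ t ∈ P ∨ t = 0 := fun t ht => by
    rcases lt_trichotomy t 0 with a | a | a
    · left
      have := (hS (x := -t) ⟨by linarith, by linarith [neg_abs_le t]⟩).2.1
      convert this using 1
      rw [r0, abs_of_neg a]
      push_cast
      linear_combination (μ * m * t) * I_mul_I
    · exact Or.inr a
    · left
      have := (hS (x := t) ⟨a, (le_abs_self t).trans ht⟩).1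
      convert this using 1
      rw [r0, abs_of_pos a]
      push_cast
      linear_combination (-(μ * m * t)) * I_mul_I
  have i0 : ∀ t : ℝ, ψ (t * I) = z₀ + -I * μ * (t * I + ((κ * min t 0 : ℝ) : ℂ)) := fun t => by
    rw [eψ]
    simp only [neg_mul, mul_re, ofReal_re, I_re, mul_zero, ofReal_im, I_im, mul_one, sub_self, abs_zero, ofReal_zero, zero_mul, add_zero, mul_im, ofReal_mul]
  have i1 : ∀ t : ℝ, |t| ≤ s → ψ (t * I) ∈ N ∨ t = 0 := fun t ht => by
    rcases lt_trichotomy t 0 with a | a | a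
    · left
      have := (hS (x := -t) ⟨by linarith, by linarith [neg_abs_le t]⟩).2.2.2
      convert this using 1
      rw [i0, min_eq_left a.le]
      push_cast
      linear_combination (-(μ * t)) * I_mul_I
    · exact Or.inr a
    · left
      have := (hS (x := t) ⟨a, (le_abs_self t).trans ht⟩).2.2.1
      convert this using 1
      rw [i0, min_eq_right a.le]
      push_cast
      linear_combination (-(μ * t)) * I_mul_I
  have z0 : ψ 0 = z₀ := by simpa only [ofReal_zero, neg_mul, abs_zero, mul_zero, zero_mul, add_zero] using r0 0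
  have p1 : ψ s ∈ P := (r1 s (abs_of_pos hs).le).resolve_right hs.ne'
  have p2 : ψ (-s) ∈ P := by
    simpa only [ofReal_neg] using (r1 (-s) (by rw [abs_neg, abs_of_pos hs])).resolve_right (neg_ne_zero.2 hs.ne')
  have n1 : ψ (s * I) ∈ N := (i1 s (abs_of_pos hs).le).resolve_right hs.ne'
  have n2 : ψ (-(s * I)) ∈ N := by
    simpa using (i1 (-s) (by rw [abs_neg, abs_of_pos hs])).resolve_right (neg_ne_zero.2 hs.ne')
  obtain ⟨γ, hγ⟩ := ((hP.isConnected_iff_isPathConnected).1 ⟨⟨_, p1⟩, hPc⟩).joinedIn _ p1 _ p2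
  have kγ : IsCompact (range γ) := isCompact_range γ.continuous
  have kσ : IsCompact {y : ℂ | y.im = 0 ∧ |y.re| ≤ s} := by
    refine isCompact_of_isClosed_isBounded ((isClosed_eq continuous_im continuous_const).inter
      (isClosed_le continuous_re.abs continuous_const))
      ((isBounded_closedBall (x := (0 : ℂ)) (r := s)).subset fun y hy => ?_)
    have := norm_le_abs_re_add_abs_im y
    rw [hy.1, abs_zero, add_zero] at this
    exact mem_closedBall_zero_iff.2 (this.trans hy.2)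
  set Λ := range γ ∪ ψ '' {y : ℂ | y.im = 0 ∧ |y.re| ≤ s} with hΛ
  have hNΛ : N ⊆ Λᶜ := by
    rintro x hx (⟨t, rfl⟩ | ⟨y, hy, rfl⟩)
    · exact disjoint_left.1 hd (hγ t) hx
    · have e : y = (y.re : ℂ) := Complex.ext rfl (by simp [hy.1])
      rw [e] at hx
      rcases r1 _ hy.2 with a | a
      · exact disjoint_left.1 hd a hx
      · rw [a, ofReal_zero, z0] at hx
        exact hzN hx
  obtain ⟨R, hR⟩ := (kγ.union (kσ.image ψ.continuous)).isBounded.exists_norm_le
  obtain ⟨q, hq, hqR⟩ : ∃ q ∈ N, R < ‖q‖ := by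
    by_contra h
    push Not at h
    exact hu (isBounded_iff_forall_norm_le.2 ⟨R, h⟩)
  have lq : HasLogOn (fun z => z - q) Λ :=
    (hasLogOn_of_convex (convex_closedBall (0 : ℂ) R) (by fun_prop) fun x hx e => by
      rw [sub_eq_zero] at e
      rw [e, mem_closedBall_zero_iff] at hx
      linarith only [hqR, hx]).mono fun x hx => mem_closedBall_zero_iff.2 (hR x hx)
  have hNp := (hN.isConnected_iff_isPathConnected).1 ⟨⟨_, hq⟩, hNc⟩
  refine jump ψ.toOpenPartialHomeomorph hs (fun _ _ _ _ => mem_univ _) kγ.isClosed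
    (isPreconnected_range γ.continuous) ⟨0, γ.source⟩ ⟨1, γ.target⟩ ?_
    (lq.of_joinedIn ((hNp.joinedIn _ hq _ n1).mono hNΛ))
    (lq.of_joinedIn ((hNp.joinedIn _ hq _ n2).mono hNΛ))
  rintro τ hτ ⟨t, ht⟩
  have h5 : ψ (τ * I) ∈ P := by
    have := hγ t
    rwa [ht] at this
  rcases i1 τ hτ with a | a
  · exact disjoint_left.1 hd h5 a
  · rw [a, ofReal_zero, zero_mul, z0] at h5
    exact hzP h5

theorem exists_slopes {k : ℕ} (hk : 2 ≤ k) : ∃ m κ : ℝ, 0 ≤ m ∧ (((m : ℂ) + I) ^ k).re < 0 ∧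
    (((m : ℂ) - I) ^ k).re < 0 ∧ 0 < ((-1 + (κ : ℂ) * I) ^ k).re := by
  have pi0 := Real.pi_pos
  have k2 : (2 : ℝ) ≤ k := by exact_mod_cast hk
  have k0 : (0 : ℝ) < k := by linarith only [k2]
  have pw : ∀ r β : ℝ, (((r : ℂ) * exp (β * I)) ^ k).re = r ^ k * Real.cos (k * β) := fun r β => by
    rw [mul_pow, ← ofReal_pow, re_ofReal_mul, ← exp_nat_mul, ← mul_assoc, ← ofReal_natCast,
      ← ofReal_mul, exp_ofReal_mul_I_re]
  obtain ⟨β, hβ⟩ : ∃ β : ℝ, β = 3 * Real.pi / 4 / k := ⟨_, rfl⟩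
  have b0 : 0 < β := by rw [hβ]; positivity
  have b1 : β < Real.pi / 2 := by rw [hβ, div_lt_iff₀ k0]; nlinarith only [pi0, k2]
  have s0 : 0 < Real.sin β := Real.sin_pos_of_pos_of_lt_pi b0 (by linarith only [b0, b1])
  have c0 : 0 < Real.cos β := Real.cos_pos_of_mem_Ioo ⟨by linarith only [b0, b1], b1⟩
  have e1 : ((Real.cos β / Real.sin β : ℝ) : ℂ) + I = ((Real.sin β)⁻¹ : ℝ) * exp (β * I) := by
    apply Complex.ext
    · rw [re_ofReal_mul, exp_ofReal_mul_I_re, add_re, ofReal_re, I_re]; field_simp; ring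
    · rw [im_ofReal_mul, exp_ofReal_mul_I_im, add_im, ofReal_im, I_im]; field_simp; ring
  have h1 : ((((Real.cos β / Real.sin β : ℝ) : ℂ) + I) ^ k).re < 0 := by
    rw [e1, pw, show k * β = 3 * Real.pi / 4 by rw [hβ]; field_simp]
    exact mul_neg_of_pos_of_neg (by positivity)
      (Real.cos_neg_of_pi_div_two_lt_of_lt (by linarith only [b0, b1]) (by linarith only [b0, b1]))
  obtain ⟨j, hj1, hj2⟩ : ∃ j : ℕ, 2 * j ≤ k ∧ k < 4 * j := ⟨k / 2, by omega, by omega⟩
  have j1 : 2 * (j : ℝ) ≤ k := by exact_mod_cast hj1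
  have j2 : (k : ℝ) < 4 * j := by exact_mod_cast hj2
  obtain ⟨γ, hγ⟩ : ∃ γ : ℝ, γ = j * (2 * Real.pi) / k := ⟨_, rfl⟩
  have c1 : Real.cos γ < 0 := Real.cos_neg_of_pi_div_two_lt_of_lt
    (by rw [hγ, lt_div_iff₀ k0]; nlinarith only [pi0, j2]) (by rw [hγ, div_lt_iff₀ k0]; nlinarith only [k2, b0, b1, j1])
  have e2 : -1 + ((Real.sin γ / -Real.cos γ : ℝ) : ℂ) * I =
      ((-Real.cos γ)⁻¹ : ℝ) * exp (γ * I) := by
    have := c1.ne
    apply Complex.ext
    · rw [re_ofReal_mul, exp_ofReal_mul_I_re, add_re, re_ofReal_mul, I_re, neg_re, one_re]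
      field_simp; ring
    · rw [im_ofReal_mul, exp_ofReal_mul_I_im, add_im, im_ofReal_mul, I_im, neg_im, one_im]
      field_simp; ring
  refine ⟨_, Real.sin γ / -Real.cos γ, (div_pos c0 s0).le, h1, ?_, ?_⟩
  · rw [← conj_re, map_pow, map_sub, conj_ofReal, conj_I, sub_neg_eq_add]
    exact h1
  · rw [e2, pw, show k * γ = j * (2 * Real.pi) by rw [hγ]; field_simp, Real.cos_nat_mul_two_pi,
      mul_one]
    exact pow_pos (inv_pos.2 (by linarith only [c1])) k

theorem no_saddle {U : ℂ → ℝ} (hU : Continuous U) (hmax : ∀ z, ¬ IsLocalMax U z)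
    (hmin : ∀ z, ¬ IsLocalMax (fun x => -U x) z) (H : ℂ ≃ₜ ℂ)
    (hH : ∀ z, 1 ≤ ‖z‖ → U z = (H z).re) {G : ℂ → ℂ} {z₀ : ℂ} (hG : AnalyticAt ℂ G z₀)
    (he : ∀ᶠ z in 𝓝 z₀, U z = (G z).re) : deriv G z₀ ≠ 0 := by
  intro h0
  have e0 := he.self_of_nhds
  have hn : ¬ ∀ᶠ z in 𝓝 z₀, G z - G z₀ = 0 := fun h => hmax z₀ (by
    filter_upwards [h, he] with z a b
    rw [b, e0, sub_eq_zero.1 a])
  obtain ⟨k, g, hg, hg0, hk⟩ :=
    (hG.sub (analyticAt_const (v := G z₀))).exists_eventuallyEq_pow_smul_nonzero_iff.2 hn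
  simp only [Pi.sub_apply, smul_eq_mul] at hk
  have k2 : 2 ≤ k := by
    match k, hk with
    | 0, hk => exact absurd (by simpa using hk.self_of_nhds.symm) hg0
    | 1, hk =>
      simp only [pow_one] at hk
      have d1 := ((hasDerivAt_id' z₀).sub_const z₀).fun_mul hg.differentiableAt.hasDerivAt
      have d2 := (hG.differentiableAt.hasDerivAt.sub_const (G z₀)).congr_of_eventuallyEq
        (EventuallyEq.symm hk)
      exact absurd (by simpa using (d1.unique d2).trans h0) hg0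
    | k + 2, _ => omega
  have ray : ∀ (d : ℂ) (σ : ℝ), 0 < σ * (g z₀ * d ^ k).re →
      ∀ᶠ t : ℝ in 𝓝[>] 0, σ * U z₀ < σ * U (z₀ + t * d) := fun d σ hd => by
    have t1 : Tendsto (fun t : ℝ => z₀ + t * d) (𝓝[>] 0) (𝓝 z₀) :=
      tendsto_nhdsWithin_of_tendsto_nhds (Continuous.tendsto' (by fun_prop) _ _ (by simp))
    have t2 : ContinuousAt (fun z => σ * (g z * d ^ k).re) z₀ :=
      continuousAt_const.mul (continuous_re.continuousAt.comp (hg.continuousAt.mul continuousAt_const))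
    filter_upwards [t1.eventually hk, t1.eventually he, t1.eventually (t2.eventually (lt_mem_nhds hd)),
      self_mem_nhdsWithin] with t a b c ht
    have : U (z₀ + t * d) = U z₀ + t ^ k * (g (z₀ + t * d) * d ^ k).re := by
      rw [b, e0, ← re_ofReal_mul, ← add_re, eq_add_of_sub_eq' a]
      congr 1
      push_cast
      ring
    have h2 := mul_pos (pow_pos (show (0 : ℝ) < t from ht) k) c
    rw [this]
    linarith only [h2]
  obtain ⟨μ, hμ⟩ := IsAlgClosed.exists_pow_nat_eq (-(g z₀)⁻¹) (show 0 < k by omega)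
  have μ0 : μ ≠ 0 := by
    rintro rfl
    rw [zero_pow (by omega), eq_comm, neg_eq_zero, inv_eq_zero] at hμ
    exact hg0 hμ
  have key : ∀ d : ℂ, (g z₀ * (μ * d) ^ k).re = -(d ^ k).re := fun d => by
    rw [mul_pow, hμ, ← neg_re]
    congr 1
    field_simp
  obtain ⟨m, κ, hm, a1, a2, a3⟩ := exists_slopes k2
  have h3 : ∀ᶠ t : ℝ in 𝓝[>] 0, z₀ + t * μ ∈ {z | -U z₀ < -U z} := by
    simpa using ray (μ * 1) (-1) (by rw [key]; simp)
  refine cross4 (P := {z | U z₀ < U z}) (N := {z | -U z₀ < -U z})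
    (isOpen_lt continuous_const hU) (isOpen_lt continuous_const hU.neg) (conn hU hmax H hH _)
    (conn hU.neg hmin (H.trans (Homeomorph.neg ℂ)) (fun z hz => by simp [hH z hz]) _)
    (disjoint_left.2 fun z (a : U z₀ < U z) (b : -U z₀ < -U z) => by linarith only [a, b]) ?_ μ0
    (lt_irrefl (U z₀)) (lt_irrefl (-U z₀)) hm ?_ ?_ h3 (κ := κ) ?_
  · obtain ⟨t, ht⟩ := h3.exists
    exact fun hb => comp_unbounded hU.neg hmin ht (hb.subset (connectedComponentIn_subset _ _))
  · simpa using ray (μ * (m - I)) 1 (by rw [key]; linarith)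
  · simpa using ray (μ * (m + I)) 1 (by rw [key]; linarith)
  · simpa using ray (μ * (-1 + κ * I)) (-1) (by rw [key]; linarith)

theorem cover {G : ℂ → ℂ} (hc : Continuous G) (hid : ∀ z, 1 ≤ ‖z‖ → G z = z)
    (hl : IsLocalHomeomorphOn G (ball 0 1)) : BijOn G (ball 0 1) (ball 0 1) := by
  have A : ∀ z ∈ ball (0 : ℂ) 1, ¬ IsMaxOn (fun y => ‖G y‖) (closedBall 0 1) z := fun z hz h => by
    have h1 : closedBall (0 : ℂ) ‖G z‖ ∈ 𝓝 (G z) := by
      rw [← hl.map_nhds_eq hz, mem_map]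
      filter_upwards [isOpen_ball.mem_nhds hz] with y hy
      exact mem_closedBall_zero_iff.2 (h (ball_subset_closedBall hy))
    rw [← mem_interior_iff_mem_nhds, interior_closedBall', mem_ball_zero_iff] at h1
    exact lt_irrefl _ h1
  obtain ⟨x, hx, hM⟩ := (isCompact_closedBall (0 : ℂ) 1).exists_isMaxOn
    (nonempty_closedBall.2 zero_le_one) hc.norm.continuousOn
  have x1 : ‖G x‖ ≤ 1 := by
    rw [hid x (not_lt.1 fun h => A x (mem_ball_zero_iff.2 h) hM)]
    exact mem_closedBall_zero_iff.1 hx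
  have hm : MapsTo G (ball 0 1) (ball 0 1) := fun z hz => by
    rw [mem_ball_zero_iff]
    by_contra h
    exact A z hz fun y hy => (show ‖G y‖ ≤ ‖G x‖ from hM hy).trans (x1.trans (not_lt.1 h))
  have hp : G ⁻¹' ball 0 1 = ball 0 1 := by
    refine Subset.antisymm (fun z hz => ?_) hm
    by_contra h
    rw [mem_preimage, hid z (not_lt.1 fun a => h (mem_ball_zero_iff.2 a))] at hz
    exact h hz
  have hcl : IsClosedMap G := fun C hC => by
    have e : G '' C = G '' (closedBall 0 1 ∩ C) ∪ (C ∩ {z | 1 ≤ ‖z‖}) := by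
      refine Subset.antisymm ?_ (union_subset (image_mono inter_subset_right)
        fun z hz => ⟨z, hz.1, hid z hz.2⟩)
      rintro _ ⟨z, hz, rfl⟩
      rcases le_total ‖z‖ 1 with a | a
      · exact Or.inl ⟨z, ⟨mem_closedBall_zero_iff.2 a, hz⟩, rfl⟩
      · rw [hid z a]
        exact Or.inr ⟨hz, a⟩
    rw [e]
    exact (((isCompact_closedBall 0 1).inter_right hC).image hc).isClosed.union
      (hC.inter (isClosed_le continuous_const continuous_norm))
  have cov : IsCoveringMapOn G (ball 0 1) := by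
    refine hcl.isCoveringMapOn_of_isLocalHomeomorphOn (fun w hw => ?_) (hp.symm ▸ hl)
    have sub : G ⁻¹' {w} ⊆ ball 0 1 := fun z hz => by
      rw [← hp, mem_preimage, show G z = w from hz]
      exact hw
    refine ((isCompact_closedBall (0 : ℂ) 1).of_isClosed_subset (isClosed_singleton.preimage hc)
      (sub.trans ball_subset_closedBall)).finite (.of_openPartialHomeomorph G subset_rfl
        fun z hz => ?_)
    obtain ⟨e, a, b⟩ := hl z (sub hz)
    exact ⟨e, a, b.symm⟩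
  have b0 : (0 : ℂ) ∈ ball (0 : ℂ) 1 := mem_ball_self one_pos
  have := (convex_ball (0 : ℂ) 1).contractibleSpace ⟨0, b0⟩
  have := (isOpen_ball (x := (0 : ℂ)) (ε := 1)).locallyPathConnectedSpace
  obtain ⟨s, ⟨s0, s1⟩, -⟩ := cov.existsUnique_continuousMap_lifts (A := ball (0 : ℂ) 1)
    ⟨Subtype.val, continuous_subtype_val⟩ (a₀ := ⟨G 0, hm b0⟩) (e₀ := 0) rfl fun a => a.2
  have s2 : ∀ a, G (s a) = a := fun a => congrFun s1 a
  have u := (cov.existsUnique_continuousMap_lifts (A := ball (0 : ℂ) 1)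
    ⟨fun a => G a, hc.comp continuous_subtype_val⟩ (a₀ := ⟨0, b0⟩) (e₀ := 0) rfl
    fun a => hm a.2).unique (y₁ := ⟨Subtype.val, continuous_subtype_val⟩)
    (y₂ := s.comp ⟨fun a => ⟨G a, hm a.2⟩, (hc.comp continuous_subtype_val).subtype_mk _⟩)
    ⟨rfl, rfl⟩ ⟨s0, funext fun a => s2 _⟩
  have u' : ∀ z (hz : z ∈ ball (0 : ℂ) 1), z = s ⟨G z, hm hz⟩ := fun z hz =>
    congrArg (fun f : C(ball (0 : ℂ) 1, ℂ) => f ⟨z, hz⟩) u
  refine ⟨hm, fun z hz w hw e => ?_, fun w hw => ⟨s ⟨w, hw⟩, ?_, s2 _⟩⟩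
  · rw [u' z hz, u' w hw]
    congr 2
  · refine hp.subset ?_
    rw [mem_preimage, s2]
    exact hw

/-- Local surjectivity at a boundary point. -/
theorem loc_surj {G : ℂ → ℂ} (hc : Continuous G) (hid : ∀ z, 1 ≤ ‖z‖ → G z = z) {ζ : ℂ}
    (hζ : ‖ζ‖ = 1) {δ : ℝ} (hδ : 0 < δ)
    (h1 : ∀ z, ‖z‖ < 1 → (z / ζ).re = 1 - δ → ‖G z‖ ≤ 1 ∧ G z ≠ ζ) :
    ∀ᶠ w in 𝓝 ζ, ‖w‖ < 1 → ∃ z, ‖z‖ < 1 ∧ 1 - δ ≤ (z / ζ).re ∧ G z = w := by
  have ζ0 : ζ ≠ 0 := norm_ne_zero_iff.1 (by rw [hζ]; exact one_ne_zero)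
  have cl : Continuous fun z : ℂ => (z / ζ).re := by fun_prop
  have lin : IsLinearMap ℝ fun z : ℂ => (z / ζ).re :=
    ⟨fun a b => by rw [add_div, add_re], fun a b => by rw [smul_div_assoc, smul_re]⟩
  set Y : Set ℂ := closedBall 0 1 ∩ {z | (z / ζ).re = 1 - δ} ∪
    sphere 0 1 ∩ {z | (z / ζ).re ≤ 1 - δ} with hY
  have kY : IsCompact Y := ((isCompact_closedBall 0 1).inter_right
    (isClosed_eq cl continuous_const)).union ((isCompact_sphere 0 1).inter_right
      (isClosed_le cl continuous_const))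
  have gY : ∀ z ∈ Y, ‖G z‖ ≤ 1 ∧ G z ≠ ζ := by
    have a : ∀ z : ℂ, ‖z‖ = 1 → (z / ζ).re ≤ 1 - δ → ‖G z‖ ≤ 1 ∧ G z ≠ ζ := fun z hz h => by
      rw [hid z hz.ge]
      refine ⟨hz.le, ?_⟩
      rintro rfl
      rw [div_self ζ0, one_re] at h
      linarith
    rintro z (⟨b, c⟩ | ⟨b, c⟩)
    · rcases (mem_closedBall_zero_iff.1 b).lt_or_eq with d | d
      · exact h1 z d c
      · exact a z d (le_of_eq c)
    · exact a z (mem_sphere_zero_iff_norm.1 b) c
  obtain ⟨η, hη, hb⟩ := Metric.isOpen_iff.1 (kY.image hc).isClosed.isOpen_compl ζ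
    (by rintro ⟨z, hz, e⟩; exact (gY z hz).2 e)
  filter_upwards [ball_mem_nhds ζ hη] with w hw hw1
  by_contra hn
  push Not at hn
  have n1 : ‖(1 + η / 2 : ℝ) • ζ‖ = 1 + η / 2 := by
    rw [norm_smul, hζ, mul_one, Real.norm_of_nonneg (by linarith only [hη])]
  have m1 : (1 + η / 2 : ℝ) • ζ ∈ ball ζ η := by
    rw [mem_ball_iff_norm, add_smul, one_smul, add_sub_cancel_left, norm_smul, hζ, mul_one,
      Real.norm_of_nonneg (by linarith)]
    linarith
  have l1 : HasLogOn (fun z => z - (1 + η / 2 : ℝ) • ζ) (G '' Y) :=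
    (hasLogOn_of_convex (convex_closedBall (0 : ℂ) 1) (by fun_prop) fun x hx e => by
      rw [sub_eq_zero] at e
      rw [e, mem_closedBall_zero_iff, n1] at hx
      linarith only [hη, hx]).mono (by rintro _ ⟨z, hz, rfl⟩; exact mem_closedBall_zero_iff.2 (gY z hz).1)
  have l2 : HasLogOn (fun z => G z - w) Y :=
    (l1.of_joinedIn ((((convex_ball ζ η).isPathConnected ⟨_, hw⟩).joinedIn _ m1 _ hw).mono hb)).comp
      hc.continuousOn (mapsTo_image G Y)
  have l3 : HasLogOn (fun z => G z - w) (closedBall 0 1 ∩ {z | 1 - δ ≤ (z / ζ).re}) := by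
    refine hasLogOn_of_convex ((convex_closedBall 0 1).inter (convex_halfSpace_ge lin _))
      (by fun_prop) fun z hz e => ?_
    rw [sub_eq_zero] at e
    rcases (mem_closedBall_zero_iff.1 hz.1).lt_or_eq with d | d
    · exact hn z d hz.2 e
    · rw [hid z d.ge] at e
      rw [← e] at hw1
      linarith
  have l4 := l2.union l3 kY.isClosed (isClosed_closedBall.inter (isClosed_le continuous_const cl))
    (by
      convert ((convex_closedBall (0 : ℂ) 1).inter (convex_hyperplane lin (1 - δ))).isPreconnected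
        using 1
      ext z
      constructor
      · rintro ⟨a | a, b⟩
        · exact a
        · exact ⟨b.1, le_antisymm a.2 b.2⟩
      · exact fun a => ⟨Or.inl a, a.1, ge_of_eq a.2⟩)
  have l5 : HasLogOn (fun z => z - w) (sphere 0 1) := by
    refine (l4.mono fun z hz => ?_).congr fun z hz => by
      rw [hid z (mem_sphere_zero_iff_norm.1 hz).ge]
    rcases le_total (z / ζ).re (1 - δ) with a | a
    · exact Or.inl (Or.inr ⟨hz, a⟩)
    · exact Or.inr ⟨sphere_subset_closedBall hz, a⟩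
  refine not_hasLogOn_sphere 0 one_pos (l5.of_joinedIn ((((convex_ball (0 : ℂ) 1).isPathConnected
    ⟨0, mem_ball_self one_pos⟩).joinedIn _ (mem_ball_zero_iff.2 hw1) _
      (mem_ball_self one_pos)).mono fun x hx a => ?_))
  exact (mem_ball_zero_iff.1 hx).ne (mem_sphere_zero_iff_norm.1 a)

end Pool.Agent.MP_0af9a5_an

end

-- part MP_0af9a5_an.Schoen
section

/-! The Schoenflies theorem: an embedding of the circle extends to a homeomorphism of the plane. -/

namespace Pool.Agent.MP_0af9a5_an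

open Set Metric Complex Topology Pool.Agent.MP_4a6971_al.H83

/-- First step: one arc of the curve is straightened. -/
theorem sch_one {u v : ℝ → ℂ} (cu : Continuous u) (cv : Continuous v) (iu : InjOn u (Icc 0 1))
    (u0 : u 0 = -1) (u1 : u 1 = 1)
    (hd : ∀ t ∈ Ioo (0 : ℝ) 1, ∀ s ∈ Icc (0 : ℝ) 1, v t ≠ u s)
    (bu : ∀ t ∈ Icc (0 : ℝ) 1, ‖u t + 1‖ ≤ 2 ∧ ‖u t - 1‖ ≤ 2)
    (bv : ∀ t ∈ Icc (0 : ℝ) 1, ‖v t + 1‖ ≤ 2 ∧ ‖v t - 1‖ ≤ 2) :
    ∃ h : ℂ ≃ₜ ℂ, (∀ s ∈ Icc (0 : ℝ) 1, h (u s) = (2 * s - 1 : ℝ)) ∧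
      ∀ t ∈ Ioo (0 : ℝ) 1, ‖h (v t)‖ < 3 ∧ 0 < (h (v t)).im := by
  have hB : interior (closedBall (0 : ℂ) 3) = ball 0 3 := interior_closedBall 0 (by norm_num)
  have small : ∀ w : ℂ, ‖w + 1‖ ≤ 2 ∧ ‖w - 1‖ ≤ 2 → ‖w‖ < 3 := fun w hw => by
    have := norm_add_le (w + 1) (w - 1)
    rw [show w + 1 + (w - 1) = (2 : ℝ) • w by simp; ring, norm_smul, Real.norm_two] at this
    linarith only [hw.1, hw.2, this]
  have rl : ∀ (w : ℂ) (s : ℝ), ‖w + 1‖ ≤ 2 ∧ ‖w - 1‖ ≤ 2 → ((6 * s - 3 : ℝ) : ℂ) = w →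
      1 / 3 ≤ s ∧ s ≤ 2 / 3 := by
    rintro _ s ⟨a, b⟩ rfl
    have a' := (abs_le.1 ((abs_re_le_norm _).trans a)).2
    have b' := (abs_le.1 ((abs_re_le_norm _).trans b)).1
    rw [add_re, ofReal_re, one_re] at a'
    rw [sub_re, ofReal_re, one_re] at b'
    constructor <;> linarith only [b', a']
  let γ : ℝ → ℂ := fun t => u (max 0 (min 1 (3 * t - 1))) +
    ((6 * min t (1 / 3) - 2 + (6 * max t (2 / 3) - 4) : ℝ) : ℂ)
  have g1 : ∀ t, t ≤ 1 / 3 ∨ 2 / 3 ≤ t → γ t = (6 * t - 3 : ℝ) := by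
    rintro t (a | a)
    · simp only [γ]
      rw [min_eq_right (by linarith), max_eq_left (by linarith), min_eq_left a,
        max_eq_right (by linarith), u0]
      push_cast; ring
    · simp only [γ]
      rw [min_eq_left (by linarith), max_eq_right (by linarith only []), min_eq_right (by linarith),
        max_eq_left a, u1]
      push_cast; ring
  have g2 : ∀ t, 1 / 3 ≤ t ∧ t ≤ 2 / 3 → γ t = u (3 * t - 1) ∧ 3 * t - 1 ∈ Icc (0 : ℝ) 1 := by
    rintro t ⟨a, b⟩
    refine ⟨?_, by linarith, by linarith⟩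
    simp only [γ]
    rw [min_eq_right (by linarith only [b]), max_eq_right (by linarith), min_eq_right a, max_eq_right b]
    push_cast; ring
  have tri : ∀ t : ℝ, (t ≤ 1 / 3 ∨ 2 / 3 ≤ t) ∨ (1 / 3 ≤ t ∧ t ≤ 2 / 3) := fun t => by
    rcases le_total t (1 / 3) with a | a
    · exact Or.inl (Or.inl a)
    rcases le_total t (2 / 3) with b | b
    · exact Or.inr ⟨a, b⟩
    · exact Or.inl (Or.inr b)
  have mm : ∀ s t : ℝ, 1 / 3 ≤ s ∧ s ≤ 2 / 3 → 1 / 3 ≤ t ∧ t ≤ 2 / 3 → γ s = γ t → s = t :=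
    fun s t a b e => by
      rw [(g2 s a).1, (g2 t b).1] at e
      linarith only [iu (g2 s a).2 (g2 t b).2 e]
  have lin : ∀ t ∈ Ioo (0 : ℝ) 1, ((6 * t - 3 : ℝ) : ℂ) ∈ interior (closedBall (0 : ℂ) 3) :=
    fun t ht => by
      rw [hB, mem_ball_zero_iff, norm_real, Real.norm_eq_abs, abs_lt]
      constructor <;> linarith [ht.1, ht.2]
  have P2 : PArc (closedBall (0 : ℂ) 3) fun t => ((6 * t - 3 : ℝ) : ℂ) :=
    { cont := by fun_prop
      inj := fun s _ t _ e => by linarith only [ofReal_injective e]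
      m0 := by simp
      n0 := by rw [hB]; simp
      m1 := by norm_num
      n1 := by rw [hB]; norm_num
      mid := lin }
  have e0 := g1 0 (Or.inl (by norm_num))
  have e1 := g1 1 (Or.inr (by norm_num))
  have P1 : PArc (closedBall (0 : ℂ) 3) γ :=
    { cont := by fun_prop
      inj := fun s _ t _ e => by
        rcases tri s with a | a <;> rcases tri t with b | b
        · rw [g1 s a, g1 t b] at e
          linarith only [ofReal_injective e]
        · exact mm s t (rl _ s (bu _ (g2 t b).2) ((g1 s a).symm.trans (e.trans (g2 t b).1))) b e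
        · exact mm s t a (rl _ t (bu _ (g2 s a).2)
            ((g1 t b).symm.trans (e.symm.trans (g2 s a).1))) e
        · exact mm s t a b e
      m0 := e0 ▸ P2.m0
      n0 := e0 ▸ P2.n0
      m1 := e1 ▸ P2.m1
      n1 := e1 ▸ P2.n1
      mid := fun t ht => by
        rcases tri t with a | a
        · exact g1 t a ▸ lin t ht
        · rw [(g2 t a).1, hB, mem_ball_zero_iff]
          exact small _ (bu _ (g2 t a).2) }
  obtain ⟨h, hs, hh⟩ := arc_lemma (isCompact_closedBall 0 3) (convex_closedBall 0 3) P1 P2 e0 e1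
  have hu : ∀ s ∈ Icc (0 : ℝ) 1, h (u s) = (2 * s - 1 : ℝ) := fun s a => by
    have b : 1 / 3 ≤ (s + 1) / 3 ∧ (s + 1) / 3 ≤ 2 / 3 := ⟨by linarith [a.1], by linarith [a.2]⟩
    have := hh ((s + 1) / 3) ⟨by linarith [a.1], by linarith [a.2]⟩
    rw [(g2 _ b).1, show 3 * ((s + 1) / 3) - 1 = s by ring] at this
    rw [this]
    congr 1
    ring
  have hv : ∀ t ∈ Ioo (0 : ℝ) 1, ‖h (v t)‖ < 3 := fun t ht => by
    rw [← mem_ball_zero_iff, ← hB, hs.mem_interior, hB, mem_ball_zero_iff]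
    exact small _ (bv t (Ioo_subset_Icc_self ht))
  have hz : ∀ t ∈ Ioo (0 : ℝ) 1, (h (v t)).im ≠ 0 := fun t ht e => by
    have a := abs_lt.1 ((abs_re_le_norm _).trans_lt (hv t ht))
    obtain ⟨s, hs'⟩ : ∃ s : ℝ, s = ((h (v t)).re + 3) / 6 := ⟨_, rfl⟩
    have b : γ s = v t := h.injective ((hh s ⟨by linarith [a.1], by linarith [a.2]⟩).trans
      (Complex.ext (by rw [ofReal_re, hs']; ring) (by rw [ofReal_im, e])))
    have c : 1 / 3 ≤ s ∧ s ≤ 2 / 3 := (tri s).elim
      (fun d => rl _ s (bv t (Ioo_subset_Icc_self ht)) ((g1 s d).symm.trans b)) id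
    exact hd t ht _ (g2 s c).2 (b.symm.trans (g2 s c).1)
  have cw : ContinuousOn (fun t => (h (v t)).im) (Ioo 0 1) := by fun_prop
  rcases isPreconnected_Ioo.mapsTo_Ioi_or_Iio cw hz with a | a
  · exact ⟨h, hu, fun t ht => ⟨hv t ht, a ht⟩⟩
  · refine ⟨h.trans conjCLE.toHomeomorph, fun s b => by
      change (starRingEnd ℂ) (h (u s)) = _
      rw [hu s b, conj_ofReal], fun t ht => ⟨?_, ?_⟩⟩
    · simpa using hv t ht
    · simpa only [Homeomorph.trans_apply, ContinuousLinearEquiv.coe_toHomeomorph, ContinuousAlgEquiv.coeCLE_apply, conjCAE_apply, conj_im, Left.neg_pos_iff, mem_Iio] using a ht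

theorem sch_two {β : ℝ → ℂ} (cβ : Continuous β) (iβ : InjOn β (Icc 0 1)) (b0 : β 0 = -1)
    (b1 : β 1 = 1) (hm : ∀ t ∈ Ioo (0 : ℝ) 1, ‖β t‖ < 3 ∧ 0 < (β t).im) :
    ∃ h : ℂ ≃ₜ ℂ, (∀ x : ℝ, h x = x) ∧ ∀ t ∈ Icc (0 : ℝ) 1,
      h (β t) = (2 * t - 1 : ℝ) + (2 * √(1 - (2 * t - 1) ^ 2) : ℝ) * I := by
  have out : ∀ x : ℝ, (x : ℂ) ∉ interior (closedBall (0 : ℂ) 3 ∩ {z | 0 ≤ z.im}) := fun x hx => by
    have := interior_mono inter_subset_right hx
    rw [interior_setOfPred_le_im] at this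
    exact lt_irrefl (0 : ℝ) this
  have arc : ∀ β : ℝ → ℂ, Continuous β → InjOn β (Icc 0 1) → β 0 = -1 → β 1 = 1 →
      (∀ t ∈ Ioo (0 : ℝ) 1, ‖β t‖ < 3 ∧ 0 < (β t).im) →
      PArc (closedBall (0 : ℂ) 3 ∩ {z | 0 ≤ z.im}) β := fun β c i e0 e1 m =>
    { cont := c.continuousOn
      inj := i
      m0 := by rw [e0]; simp only [mem_inter_iff, mem_closedBall, dist_zero_right, norm_neg, norm_one, Nat.one_le_ofNat, mem_ofPred_eq, neg_im, one_im, neg_zero, Std.le_refl, and_self]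
      n0 := by rw [e0]; simp only [interior_inter, interior_setOfPred_le_im, mem_inter_iff, mem_ofPred_eq, neg_im, one_im, neg_zero, lt_self_iff_false, and_false, not_false_eq_true]
      m1 := by rw [e1]; simp only [mem_inter_iff, mem_closedBall, dist_zero_right, norm_one, Nat.one_le_ofNat, mem_ofPred_eq, one_im, Std.le_refl, and_self]
      n1 := by rw [e1]; simp only [interior_inter, interior_setOfPred_le_im, mem_inter_iff, mem_ofPred_eq, one_im, lt_self_iff_false, and_false, not_false_eq_true]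
      mid := fun t ht => interior_maximal (t := ball 0 3 ∩ {z : ℂ | 0 < z.im})
        (inter_subset_inter ball_subset_closedBall fun z (hz : 0 < z.im) => hz.le)
        (isOpen_ball.inter (isOpen_lt continuous_const continuous_im))
        ⟨mem_ball_zero_iff.2 (m t ht).1, (m t ht).2⟩ }
  obtain ⟨h, hs, hh⟩ := arc_lemma ((isCompact_closedBall 0 3).inter_right
    (isClosed_le continuous_const continuous_im)) ((convex_closedBall 0 3).inter
      (convex_halfSpace_im_ge 0)) (arc β cβ iβ b0 b1 hm)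
    (arc (fun t => (2 * t - 1 : ℝ) + (2 * √(1 - (2 * t - 1) ^ 2) : ℝ) * I) (by fun_prop)
      (fun s _ t _ e => by simpa using congrArg re e) (by simp only [mul_zero, zero_sub, ofReal_neg, ofReal_one, even_two, Even.neg_pow, one_pow, sub_self, Real.sqrt_zero, ofReal_zero, zero_mul, add_zero]) (by norm_num) fun t ht => by
        have a : 0 < 1 - (2 * t - 1) ^ 2 := by nlinarith only [ht.1, ht.2]
        have b : √(1 - (2 * t - 1) ^ 2) ≤ 1 := Real.sqrt_le_one.2 (by linarith only [sq_nonneg (2 * t - 1)])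
        have c := Real.sqrt_pos.2 a
        refine ⟨(norm_le_abs_re_add_abs_im _).trans_lt ?_, ?_⟩
        · rw [add_re, add_im, ofReal_re, ofReal_im, re_ofReal_mul, im_ofReal_mul, I_re, I_im,
            mul_zero, add_zero, zero_add, mul_one, abs_of_pos (by linarith : 0 < 2 * √_)]
          have : |2 * t - 1| < 1 := abs_lt.2 ⟨by linarith [ht.1], by linarith [ht.2]⟩
          linarith
        · rw [add_im, ofReal_im, im_ofReal_mul, I_im]
          linarith)
    (by rw [b0]; simp only [mul_zero, zero_sub, ofReal_neg, ofReal_one, even_two, Even.neg_pow, one_pow, sub_self, Real.sqrt_zero, ofReal_zero, zero_mul, add_zero]) (by rw [b1]; norm_num)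
  exact ⟨h, fun x => hs _ (out x), hh⟩

theorem sch_norm {φ : ℂ → ℂ} (hc : ContinuousOn φ (sphere 0 1)) (hi : InjOn φ (sphere 0 1))
    {a b : ℂ} (ha : a ∈ sphere (0 : ℂ) 1) (hb : b ∈ sphere (0 : ℂ) 1) (ea : φ a = -1) (eb : φ b = 1)
    (bd : ∀ z ∈ sphere (0 : ℂ) 1, ‖φ z + 1‖ ≤ 2 ∧ ‖φ z - 1‖ ≤ 2) :
    ∃ H : ℂ ≃ₜ ℂ, EqOn H φ (sphere 0 1) := by
  have hab : a ≠ b := by
    rintro rfl
    rw [ea] at eb
    norm_num at eb
  obtain ⟨α₁, α₂, c1, c2, i1, i2, a1, b1, a2, b2, un, hd⟩ := Arc_circle ha hb hab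
  have m1 : MapsTo α₁ (Icc 0 1) (sphere 0 1) := fun t ht => un ▸ Or.inl (mem_image_of_mem _ ht)
  have m2 : MapsTo α₂ (Icc 0 1) (sphere 0 1) := fun t ht => un ▸ Or.inr (mem_image_of_mem _ ht)
  have z0 : (0 : ℝ) ∈ Icc (0 : ℝ) 1 := left_mem_Icc.2 zero_le_one
  have z1 : (1 : ℝ) ∈ Icc (0 : ℝ) 1 := right_mem_Icc.2 zero_le_one
  have ext : ∀ α : ℝ → ℂ, Continuous α → MapsTo α (Icc 0 1) (sphere 0 1) →
      ∃ u : ℝ → ℂ, Continuous u ∧ ∀ t ∈ Icc (0 : ℝ) 1, u t = φ (α t) := fun α c m =>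
    ⟨fun t => φ (α (projIcc (0 : ℝ) 1 zero_le_one t)), hc.comp_continuous
      (c.comp (continuous_subtype_val.comp continuous_projIcc)) fun t => m (projIcc _ _ _ t).2,
      fun t ht => by simp only [projIcc_of_mem _ ht]⟩
  obtain ⟨u, cu, eu⟩ := ext α₁ c1 m1
  obtain ⟨v, cv, ev⟩ := ext α₂ c2 m2
  obtain ⟨h, hu, hv⟩ := sch_one cu cv
    (fun s hs t ht e => i1 hs ht (hi (m1 hs) (m1 ht) (by rwa [← eu s hs, ← eu t ht])))
    (by rw [eu 0 z0, a1, ea]) (by rw [eu 1 z1, b1, eb])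
    (fun t ht s hs e => by
      have ht' := Ioo_subset_Icc_self ht
      have e' : α₂ t = α₁ s := hi (m2 ht') (m1 hs) (by rwa [← ev t ht', ← eu s hs])
      rcases hs.1.eq_or_lt with rfl | p
      · exact ht.1.ne' (i2 ht' z0 (by rw [e', a1, a2]))
      rcases hs.2.eq_or_lt with rfl | q
      · exact ht.2.ne (i2 ht' z1 (by rw [e', b1, b2]))
      · exact hd s ⟨p, q⟩ t ht e'.symm)
    (fun t ht => eu t ht ▸ bd _ (m1 ht)) (fun t ht => ev t ht ▸ bd _ (m2 ht))
  obtain ⟨k, kr, kv⟩ := sch_two (β := fun t => h (v t)) (h.continuous.comp cv)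
    (fun s hs t ht e => i2 hs ht (hi (m2 hs) (m2 ht)
      (by rw [← ev s hs, ← ev t ht]; exact h.injective e)))
    (by simpa [ev 0 z0, a2, eu 0 z0, a1] using hu 0 z0)
    (by have := hu 1 z1; rw [eu 1 z1, b1] at this; rw [ev 1 z1, b2, this]; norm_num) hv
  let S : ℂ ≃ₜ ℂ := shI (fun x => √(1 - x ^ 2)) (by fun_prop)
  let T : ℂ ≃ₜ ℂ := (h.trans k).trans S.symm
  have t1 : ∀ s ∈ Icc (0 : ℝ) 1, T (φ (α₁ s)) = ⟨2 * s - 1, -√(1 - (2 * s - 1) ^ 2)⟩ :=
    fun s hs => by
      change S.symm (k (h _)) = _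
      rw [← eu s hs, hu s hs, kr]
      apply Complex.ext <;> simp [S, shI]
  have t2 : ∀ s ∈ Icc (0 : ℝ) 1, T (φ (α₂ s)) = ⟨2 * s - 1, √(1 - (2 * s - 1) ^ 2)⟩ :=
    fun s hs => by
      change S.symm (k (h _)) = _
      rw [← ev s hs, kv s hs]
      apply Complex.ext <;> simp only [S, shI, ofReal_sub, ofReal_mul, ofReal_ofNat, ofReal_one, Homeomorph.homeomorph_mk_coe_symm, Equiv.symm_mk, Equiv.coe_fn_mk, add_re, sub_re, mul_re, re_ofNat, ofReal_re, im_ofNat, ofReal_im, mul_zero, sub_zero, one_re, I_re, mul_im, zero_mul, add_zero, I_im, mul_one, sub_self, sub_im, add_im, one_im, zero_add]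
      ring
  have sq : ∀ w : ℂ, w ∈ sphere (0 : ℂ) 1 ↔ w.im ^ 2 = 1 - w.re ^ 2 := fun w => by
    rw [mem_sphere_zero_iff_norm, ← sq_eq_sq₀ (norm_nonneg _) zero_le_one, Complex.sq_norm,
      normSq_apply]
    constructor <;> intro e <;> linarith only [e]
  obtain ⟨g, -, hg⟩ := Cone1_ball (b := fun z => T (φ z)) (T.continuous.comp_continuousOn hc)
    ⟨fun z hz => by
      rcases un.symm.subset hz with ⟨s, hs, rfl⟩ | ⟨s, hs, rfl⟩
      · change T _ ∈ _
        rw [t1 s hs, sq, neg_sq, Real.sq_sqrt (by nlinarith only [hs.1, hs.2])]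
      · change T _ ∈ _
        rw [t2 s hs, sq, Real.sq_sqrt (by nlinarith only [hs.1, hs.2])],
    T.injective.comp_injOn hi, fun w hw => by
      have p := abs_le.1 ((abs_re_le_norm w).trans_eq (mem_sphere_zero_iff_norm.1 hw))
      have hs : (w.re + 1) / 2 ∈ Icc (0 : ℝ) 1 := ⟨by linarith [p.1], by linarith [p.2]⟩
      have e : 2 * ((w.re + 1) / 2) - 1 = w.re := by ring
      have q : √(1 - w.re ^ 2) = |w.im| := by rw [← (sq w).1 hw, Real.sqrt_sq_eq_abs]
      rcases le_total w.im 0 with r | r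
      · refine ⟨_, m1 hs, (t1 _ hs).trans ?_⟩
        rw [e, q, abs_of_nonpos r, neg_neg]
      · refine ⟨_, m2 hs, (t2 _ hs).trans ?_⟩
        rw [e, q, abs_of_nonneg r]⟩
  exact ⟨g.trans T.symm, fun z hz => T.symm_apply_eq.2 (hg hz)⟩

/-- The Schoenflies theorem. -/
theorem schoenflies {φ : ℂ → ℂ} (hc : ContinuousOn φ (sphere 0 1)) (hi : InjOn φ (sphere 0 1)) :
    ∃ H : ℂ ≃ₜ ℂ, EqOn H φ (sphere 0 1) := by
  have k := isCompact_sphere (0 : ℂ) 1
  have o1 : (1 : ℂ) ∈ sphere (0 : ℂ) 1 := by simp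
  have o2 : (-1 : ℂ) ∈ sphere (0 : ℂ) 1 := by simp
  obtain ⟨⟨a, b⟩, ⟨ha, hb⟩, hM⟩ := (k.prod k).exists_isMaxOn ⟨(1, 1), o1, o1⟩
    (f := fun p : ℂ × ℂ => ‖φ p.2 - φ p.1‖) ((hc.comp continuousOn_snd fun p hp => hp.2).sub
      (hc.comp continuousOn_fst fun p hp => hp.1)).norm
  have le : ∀ x ∈ sphere (0 : ℂ) 1, ∀ y ∈ sphere (0 : ℂ) 1, ‖φ y - φ x‖ ≤ ‖φ b - φ a‖ :=
    fun x hx y hy => hM (show (x, y) ∈ sphere (0 : ℂ) 1 ×ˢ sphere (0 : ℂ) 1 from ⟨hx, hy⟩)
  have d0 : φ b - φ a ≠ 0 := fun e => by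
    have := le 1 o1 (-1) o2
    rw [e, norm_zero, norm_le_zero_iff, sub_eq_zero] at this
    have := hi o2 o1 this
    norm_num at this
  have n0 := norm_pos_iff.2 d0
  let A : ℂ ≃ₜ ℂ := (Homeomorph.addRight (-((φ a + φ b) / 2))).trans
    (Homeomorph.mulLeft₀ (2 / (φ b - φ a)) (div_ne_zero two_ne_zero d0))
  have eA : ∀ w, A w = 2 / (φ b - φ a) * (w - (φ a + φ b) / 2) := fun w => rfl
  have nb : ∀ w : ℂ, ‖w‖ ≤ ‖φ b - φ a‖ → ‖2 / (φ b - φ a) * w‖ ≤ 2 := fun w hw => by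
    rw [norm_mul, norm_div, Complex.norm_two, div_mul_eq_mul_div, div_le_iff₀ n0]
    linarith
  obtain ⟨H, hH⟩ := sch_norm (φ := fun z => A (φ z)) (A.continuous.comp_continuousOn hc)
    (A.injective.comp_injOn hi) ha hb (by rw [eA]; field_simp; ring) (by rw [eA]; field_simp; ring)
    fun z hz => ⟨by
      rw [show A (φ z) + 1 = 2 / (φ b - φ a) * (φ z - φ a) by rw [eA]; field_simp; ring]
      exact nb _ (le a ha z hz), by
      rw [show A (φ z) - 1 = 2 / (φ b - φ a) * (φ z - φ b) by rw [eA]; field_simp; ring]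
      exact nb _ (le b hb z hz)⟩
  exact ⟨H.trans A.symm, fun z hz => A.symm_apply_eq.2 (hH hz)⟩

end Pool.Agent.MP_0af9a5_an

end

-- part MP_0af9a5_an.Poi
section

/-! The Poisson extension: boundary values and holomorphic potentials. -/

namespace Pool.Agent.MP_0af9a5_an

open Set Metric Complex Filter Topology Real

theorem pk_cont {z : ℂ} (hz : z ∈ ball (0 : ℂ) 1) : ContinuousOn (poissonKernel 0 z) (sphere 0 1) := by
  rw [poissonKernel_eq_re_herglotzRieszKernel]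
  have := continuousOn_herglotzRieszKernel_sphere hz
  rw [abs_one] at this
  exact continuous_re.comp_continuousOn this

theorem pk_nonneg {z w : ℂ} (hz : z ∈ ball (0 : ℂ) 1) (hw : w ∈ sphere (0 : ℂ) 1) :
    0 ≤ poissonKernel 0 z w := by
  rw [poissonKernel_def, sub_zero, sub_zero, mem_sphere_zero_iff_norm.1 hw]
  have := mem_ball_zero_iff.1 hz
  exact div_nonneg (by nlinarith only [norm_nonneg z, this]) (sq_nonneg _)

/-- Poisson integral of a real function. -/
noncomputable def PI (g : ℂ → ℝ) (z : ℂ) : ℝ := circleAverage (poissonKernel 0 z • g) 0 1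

theorem PI_int {g : ℂ → ℝ} (hg : ContinuousOn g (sphere 0 1)) {z : ℂ} (hz : z ∈ ball (0 : ℂ) 1) :
    CircleIntegrable (poissonKernel 0 z • g) 0 1 :=
  ((pk_cont hz).smul hg).circleIntegrable zero_le_one

theorem PI_mono {g h : ℂ → ℝ} (hg : ContinuousOn g (sphere 0 1)) (hh : ContinuousOn h (sphere 0 1))
    (le : ∀ w ∈ sphere (0 : ℂ) 1, g w ≤ h w) {z : ℂ} (hz : z ∈ ball (0 : ℂ) 1) :
    PI g z ≤ PI h z :=
  circleAverage_mono (PI_int hg hz) (PI_int hh hz) fun w hw => by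
    rw [abs_one] at hw
    exact mul_le_mul_of_nonneg_left (le w hw) (pk_nonneg hz hw)

theorem PI_aff (a b z : ℂ) (hz : z ∈ ball (0 : ℂ) 1) :
    PI (fun w => (a + b * w).re) z = (a + b * z).re := by
  have h := (Differentiable.diffContOnCl (f := fun w : ℂ => a + b * w) (s := ball 0 1)
    (by fun_prop)).circleAverage_poissonKernel_smul hz
  rw [← h]
  have i : CircleIntegrable (poissonKernel 0 z • fun w : ℂ => a + b * w) 0 1 :=
    ((pk_cont hz).smul (by fun_prop)).circleIntegrable zero_le_one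
  refine Eq.trans ?_ (reCLM.circleAverage_comp_comm i)
  unfold PI
  congr 1
  ext w
  simp only [add_re, mul_re, Pi.smul_apply', smul_eq_mul, mul_add, Function.comp_apply, smul_add, real_smul, reCLM_apply, ofReal_re, ofReal_im, zero_mul, sub_zero, mul_im, add_zero]

theorem PI_le {g : ℂ → ℝ} (hg : ContinuousOn g (sphere 0 1)) {ζ : ℂ} (hζ : ζ ∈ sphere (0 : ℂ) 1)
    {ε : ℝ} (hε : 0 < ε) : ∀ᶠ z in 𝓝[ball 0 1] ζ, PI g z < g ζ + ε := by
  obtain ⟨δ, hδ, h1⟩ := Metric.continuousWithinAt_iff.1 (hg ζ hζ) (ε / 2) (half_pos hε)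
  obtain ⟨M, hM⟩ := (isCompact_sphere (0 : ℂ) 1).exists_bound_of_continuousOn hg
  have n1 := mem_sphere_zero_iff_norm.1 hζ
  have M0 : 0 ≤ M := (norm_nonneg _).trans (hM ζ hζ)
  obtain ⟨C, hC⟩ : ∃ C : ℝ, C = 2 * M / δ ^ 2 := ⟨_, rfl⟩
  have C0 : 0 ≤ C := by rw [hC]; positivity
  have le : ∀ w ∈ sphere (0 : ℂ) 1, g w ≤
      (((g ζ + ε / 2 + 2 * C : ℝ) : ℂ) + (-(2 * C : ℝ) * (starRingEnd ℂ) ζ) * w).re := fun w hw => by
    have n2 := mem_sphere_zero_iff_norm.1 hw
    have e : (((g ζ + ε / 2 + 2 * C : ℝ) : ℂ) + (-(2 * C : ℝ) * (starRingEnd ℂ) ζ) * w).re =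
        g ζ + ε / 2 + C * dist w ζ ^ 2 := by
      have a1 : ζ.re * ζ.re + ζ.im * ζ.im = 1 := by rw [← normSq_apply, normSq_eq_norm_sq, n1]; simp
      have a2 : w.re * w.re + w.im * w.im = 1 := by rw [← normSq_apply, normSq_eq_norm_sq, n2]; simp
      rw [dist_eq_norm, Complex.sq_norm, normSq_apply]
      simp only [add_re, ofReal_re, mul_re, neg_re, neg_im, ofReal_im, conj_re, conj_im, mul_im,
        sub_re, sub_im]
      linear_combination (-C) * a1 - C * a2
    rw [e]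
    rcases lt_or_ge (dist w ζ) δ with a | a
    · have := abs_lt.1 (h1 hw a)
      linarith only [mul_nonneg C0 (sq_nonneg (dist w ζ)), this]
    · have b1 := abs_le.1 (hM w hw)
      have b2 := abs_le.1 (hM ζ hζ)
      have b3 : C * δ ^ 2 = 2 * M := by rw [hC]; field_simp
      have b4 : C * δ ^ 2 ≤ C * dist w ζ ^ 2 := by gcongr
      linarith only [hε, b1, b2, b3, b4]
  have t : Tendsto (fun z : ℂ => (((g ζ + ε / 2 + 2 * C : ℝ) : ℂ) +
      (-(2 * C : ℝ) * (starRingEnd ℂ) ζ) * z).re) (𝓝 ζ) (𝓝 (g ζ + ε / 2)) := by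
    refine Continuous.tendsto' (by fun_prop) _ _ ?_
    rw [mul_assoc, conj_mul', n1]
    simp
  filter_upwards [self_mem_nhdsWithin, mem_nhdsWithin_of_mem_nhds
    (t.eventually (gt_mem_nhds (show g ζ + ε / 2 < g ζ + ε by linarith)))] with z hz h
  exact ((PI_mono hg (by fun_prop) le hz).trans_eq (PI_aff _ _ z hz)).trans_lt h

theorem PI_neg (g : ℂ → ℝ) (z : ℂ) : PI (fun w => -g w) z = -PI g z := by
  unfold PI
  rw [← neg_one_smul ℝ (circleAverage _ _ _), ← circleAverage_smul]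
  congr 1
  ext w
  simp

theorem PI_tendsto {g : ℂ → ℝ} (hg : ContinuousOn g (sphere 0 1)) {ζ : ℂ}
    (hζ : ζ ∈ sphere (0 : ℂ) 1) : Tendsto (PI g) (𝓝[ball 0 1] ζ) (𝓝 (g ζ)) := by
  refine Metric.tendsto_nhds.2 fun ε hε => ?_
  filter_upwards [PI_le hg hζ hε, PI_le (g := fun w => -g w) hg.neg hζ hε] with z a b
  rw [PI_neg] at b
  exact abs_lt.2 ⟨by linarith, by linarith⟩

theorem PI_holo {g : ℂ → ℝ} (hg : ContinuousOn g (sphere 0 1)) :
    ∃ A : ℂ → ℂ, AnalyticOnNhd ℂ A (ball 0 1) ∧ ∀ z ∈ ball (0 : ℂ) 1, PI g z = (A z).re := by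
  refine ⟨_, analyticOnNhd_circleAverage_herglotzRieszKernel_smul
    ((continuous_ofReal.comp_continuousOn hg).circleIntegrable zero_le_one), fun z hz => ?_⟩
  rw [PI, poissonKernel_eq_re_herglotzRieszKernel]
  exact (re_circleAverage_herglotzRieszKernel_smul (hg.circleIntegrable zero_le_one) hz).symm

theorem poisson_eq {φ : ℂ → ℂ} (hφ : ContinuousOn φ (sphere 0 1)) {z : ℂ}
    (hz : z ∈ ball (0 : ℂ) 1) :
    ((1 / (2 * Real.pi) : ℝ) : ℂ) * ∫ t in (0 : ℝ)..(2 * Real.pi),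
      (((1 - ‖z‖ ^ 2) / ‖Complex.exp ((t : ℂ) * Complex.I) - z‖ ^ 2 : ℝ) : ℂ) *
        φ (Complex.exp ((t : ℂ) * Complex.I)) =
      PI (fun w => (φ w).re) z + PI (fun w => (φ w).im) z * I := by
  have i : CircleIntegrable (poissonKernel 0 z • φ) 0 1 :=
    ((pk_cont hz).smul hφ).circleIntegrable zero_le_one
  have e : ((1 / (2 * Real.pi) : ℝ) : ℂ) * ∫ t in (0 : ℝ)..(2 * Real.pi),
      (((1 - ‖z‖ ^ 2) / ‖Complex.exp ((t : ℂ) * Complex.I) - z‖ ^ 2 : ℝ) : ℂ) *
        φ (Complex.exp ((t : ℂ) * Complex.I)) = circleAverage (poissonKernel 0 z • φ) 0 1 := by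
    rw [circleAverage_def, one_div, real_smul]
    congr 2
    ext t
    simp only [ofReal_div, ofReal_sub, ofReal_one, ofReal_pow, circleMap, one_mul, zero_add, Pi.smul_apply', poissonKernel_def, sub_zero, norm_exp_ofReal_mul_I, one_pow, real_smul]
  rw [e, ← re_add_im (circleAverage _ _ _)]
  congr 2
  · refine (reCLM.circleAverage_comp_comm i).symm.trans ?_
    unfold PI
    congr 1
    ext w
    simp only [Function.comp_apply, Pi.smul_apply', real_smul, reCLM_apply, mul_re, ofReal_re, ofReal_im, zero_mul, sub_zero, smul_eq_mul]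
  · congr 1
    refine (imCLM.circleAverage_comp_comm i).symm.trans ?_
    unfold PI
    congr 1
    ext w
    simp only [Function.comp_apply, Pi.smul_apply', real_smul, imCLM_apply, mul_im, ofReal_re, ofReal_im, zero_mul, add_zero, smul_eq_mul]

end Pool.Agent.MP_0af9a5_an

end

-- part MP_0af9a5_an.Main
section

/-! The glued map and the boundary criterion. -/

namespace Pool.Agent.MP_0af9a5_an

open Set Metric Complex Filter Topology ComplexConjugate

theorem nomax_of_le {f : ℂ → ℝ} {z : ℂ} (h : 𝓝 (f z) ≤ map f (𝓝 z)) : ¬ IsLocalMax f z := fun hm => by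
  have h1 : ∀ᶠ y in 𝓝 (f z), y ≤ f z := h (mem_map.2 hm)
  obtain ⟨y, a, b⟩ := ((frequently_gt_nhds (f z)).and_eventually h1).exists
  exact not_lt.2 b a

theorem H_nomax (H : ℂ ≃ₜ ℂ) {e : ℂ} (he : e ≠ 0) (z : ℂ) :
    ¬ IsLocalMax (fun x => (conj e * H x).re) z :=
  nomax_of_le ((isOpenMap_re.comp ((H.trans (Homeomorph.mulLeft₀ (conj e)
    ((map_ne_zero _).2 he))).isOpenMap)).nhds_le z)

theorem max_ball {U : ℂ → ℝ} (hU : Continuous U) (h : ∀ z ∈ ball (0 : ℂ) 1, ¬ IsLocalMax U z)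
    {m : ℝ} (hm : ∀ ξ ∈ sphere (0 : ℂ) 1, U ξ ≤ m) : ∀ z ∈ ball (0 : ℂ) 1, U z < m := by
  have A : ∀ z ∈ ball (0 : ℂ) 1, ¬ IsMaxOn U (closedBall 0 1) z := fun z hz a =>
    h z hz (a.isLocalMax (mem_of_superset (isOpen_ball.mem_nhds hz) ball_subset_closedBall))
  obtain ⟨x, hx, hM⟩ := (isCompact_closedBall (0 : ℂ) 1).exists_isMaxOn
    (nonempty_closedBall.2 zero_le_one) hU.continuousOn
  have x1 : U x ≤ m := hm x (((mem_closedBall.1 hx).lt_or_eq.resolve_left fun a => A x a hM))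
  intro z hz
  by_contra a
  exact A z hz fun y hy => (show U y ≤ U x from hM hy).trans (x1.trans (not_lt.1 a))

theorem inside_iff (H : ℂ ≃ₜ ℂ) {y : ℂ} (hy : y ∉ sphere (0 : ℂ) 1) :
    Bornology.IsBounded (connectedComponentIn (H '' sphere 0 1)ᶜ (H y)) ↔ ‖y‖ < 1 := by
  rw [← H.image_compl, ← H.image_connectedComponentIn (s := (sphere 0 1)ᶜ) hy]
  refine ⟨fun hb => ?_, fun h => ?_⟩
  · by_contra h
    have h1 : 1 < ‖y‖ := lt_of_le_of_ne (not_lt.1 h) fun a => hy (mem_sphere_zero_iff_norm.2 a.symm)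
    obtain ⟨R, hR⟩ := hb.exists_norm_le
    obtain ⟨M, hM⟩ := (H.isCompact_preimage.2 (isCompact_closedBall 0 R)).isBounded.exists_norm_le
    have n : ∀ t : ℝ, 1 ≤ t → ‖t • y‖ = t * ‖y‖ := fun t ht => by
      rw [norm_smul, Real.norm_of_nonneg (by linarith)]
    have sub : (fun t : ℝ => t • y) '' Ici 1 ⊆ connectedComponentIn (sphere 0 1)ᶜ y :=
      (isPreconnected_Ici.image _ (by fun_prop)).subset_connectedComponentIn
        ⟨1, le_refl (1 : ℝ), one_smul _ _⟩ (by
          rintro _ ⟨t, ht, rfl⟩ a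
          rw [mem_sphere_zero_iff_norm, n t ht] at a
          nlinarith only [mem_Ici.1 ht, h1, a])
    have t1 : 1 ≤ max M 1 := le_max_right _ _
    have := hM (max M 1 • y)
      (mem_closedBall_zero_iff.2 (hR _ (mem_image_of_mem H (sub (mem_image_of_mem _ t1)))))
    rw [n _ t1] at this
    nlinarith [le_max_left M 1]
  · refine ((isCompact_closedBall (0 : ℂ) 1).image H.continuous).isBounded.subset
      (image_mono (Subset.trans ?_ ball_subset_closedBall))
    refine isPreconnected_connectedComponentIn.subset_left_of_subset_union isOpen_ball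
      (isClosed_closedBall (x := (0 : ℂ)) (ε := 1)).isOpen_compl
      (disjoint_compl_right.mono_left ball_subset_closedBall) (fun x hx => ?_)
      ⟨y, mem_connectedComponentIn hy, mem_ball_zero_iff.2 h⟩
    rcases lt_or_gt_of_ne (fun a => connectedComponentIn_subset _ _ hx
      (mem_sphere_zero_iff_norm.2 a) : ‖x‖ ≠ 1) with a | a
    · exact Or.inl (mem_ball_zero_iff.2 a)
    · exact Or.inr fun b => not_le.2 a (mem_closedBall_zero_iff.1 b)

theorem D_eq (H : ℂ ≃ₜ ℂ) : {w | w ∉ H '' sphere 0 1 ∧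
    Bornology.IsBounded (connectedComponentIn (H '' sphere 0 1)ᶜ w)} = H '' ball 0 1 := by
  ext w
  obtain ⟨y, rfl⟩ := H.surjective w
  simp only [mem_ofPred_eq, H.injective.mem_set_image]
  exact ⟨fun h => mem_ball_zero_iff.2 ((inside_iff H h.1).1 h.2), fun h => by
    have a : y ∉ sphere (0 : ℂ) 1 := fun b => (mem_ball.1 h).ne (mem_sphere.1 b)
    exact ⟨a, (inside_iff H a).2 (mem_ball_zero_iff.1 h)⟩⟩

theorem E_eq (H : ℂ ≃ₜ ℂ) : {w | w ∉ H '' sphere 0 1 ∧
    ¬ Bornology.IsBounded (connectedComponentIn (H '' sphere 0 1)ᶜ w)} = H '' {y | 1 < ‖y‖} := by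
  ext w
  obtain ⟨y, rfl⟩ := H.surjective w
  simp only [mem_ofPred_eq, H.injective.mem_set_image]
  exact ⟨fun h => lt_of_le_of_ne (not_lt.1 (mt (inside_iff H h.1).2 h.2))
    fun a => h.1 (mem_sphere_zero_iff_norm.2 a.symm), fun h => by
    have a : y ∉ sphere (0 : ℂ) 1 := fun b => h.ne' (mem_sphere_zero_iff_norm.1 b)
    exact ⟨a, fun b => not_lt.2 h.le ((inside_iff H a).1 b)⟩⟩

/-- A harmonic map of the disc glued with a homeomorphism of the plane along the circle. -/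
structure Glue (H : ℂ ≃ₜ ℂ) (F A B : ℂ → ℂ) : Prop where
  cont : Continuous F
  out : ∀ z, 1 ≤ ‖z‖ → F z = H z
  hA : AnalyticOnNhd ℂ A (ball 0 1)
  hB : AnalyticOnNhd ℂ B (ball 0 1)
  inn : ∀ z ∈ ball (0 : ℂ) 1, F z = (A z).re + (B z).re * I

theorem exists_glue {φ P : ℂ → ℂ} (hc : ContinuousOn φ (sphere 0 1)) {H : ℂ ≃ₜ ℂ}
    (hH : EqOn H φ (sphere 0 1))
    (hP : ∀ z ∈ ball (0 : ℂ) 1, P z = PI (fun w => (φ w).re) z + PI (fun w => (φ w).im) z * I) :
    ∃ F A B, Glue H F A B ∧ EqOn F P (ball 0 1) := by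
  have c1 : ContinuousOn (fun w => (φ w).re) (sphere 0 1) := continuous_re.comp_continuousOn hc
  have c2 : ContinuousOn (fun w => (φ w).im) (sphere 0 1) := continuous_im.comp_continuousOn hc
  obtain ⟨A, hA, eA⟩ := PI_holo c1
  obtain ⟨B, hB, eB⟩ := PI_holo c2
  classical
  have e1 : EqOn ((ball 0 1).piecewise P H) P (ball 0 1) := piecewise_eqOn _ _ _
  have e2 : EqOn ((ball 0 1).piecewise P H) H (ball 0 1)ᶜ := piecewise_eqOn_compl _ _ _
  have e3 : ∀ z ∈ ball (0 : ℂ) 1, (ball 0 1).piecewise P H z = (A z).re + (B z).re * I :=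
    fun z hz => by rw [e1 hz, hP z hz, eA z hz, eB z hz]
  refine ⟨_, A, B, ⟨continuous_iff_continuousAt.2 fun z => ?_,
    fun z hz => e2 fun a => not_lt.2 hz (mem_ball_zero_iff.1 a), hA, hB, e3⟩, e1⟩
  by_cases hz : z ∈ ball (0 : ℂ) 1
  · have a := (hA z hz).continuousAt
    have b := (hB z hz).continuousAt
    refine ContinuousAt.congr (f := fun z => ((A z).re : ℂ) + (B z).re * I) (by fun_prop) ?_
    filter_upwards [isOpen_ball.mem_nhds hz] with y hy using (e3 y hy).symm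
  rw [← continuousWithinAt_univ, ← union_compl_self (ball (0 : ℂ) 1)]
  refine ContinuousWithinAt.union ?_ (H.continuous.continuousWithinAt.congr e2 (e2 hz))
  by_cases h1 : z ∈ sphere (0 : ℂ) 1
  · have t := ((continuous_ofReal.tendsto _).comp (PI_tendsto c1 h1)).add
      (((continuous_ofReal.tendsto _).comp (PI_tendsto c2 h1)).mul_const I)
    rw [re_add_im, ← hH h1, ← e2 hz] at t
    exact t.congr' (eventually_mem_nhdsWithin.mono fun y hy => ((e1 hy).trans (hP y hy)).symm)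
  · refine continuousWithinAt_of_notMem_closure ?_
    rw [closure_ball 0 one_ne_zero, ← ball_union_sphere]
    exact fun a => a.elim hz h1

namespace Glue

variable {H : ℂ ≃ₜ ℂ} {F A B : ℂ → ℂ} (g : Glue H F A B)
include g

theorem cU (e : ℂ) : Continuous fun x => (conj e * F x).re := by
  have := g.cont
  fun_prop

theorem ana (e : ℂ) : AnalyticOnNhd ℂ (fun x => e.re * A x + e.im * B x) (ball 0 1) :=
  (analyticOnNhd_const.mul g.hA).add (analyticOnNhd_const.mul g.hB)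

theorem re_eq (e : ℂ) {z : ℂ} (hz : z ∈ ball (0 : ℂ) 1) :
    (conj e * F z).re = (e.re * A z + e.im * B z).re := by
  rw [g.inn z hz]
  simp

theorem int_nomax {e : ℂ} (he : e ≠ 0) {z : ℂ} (hz : z ∈ ball (0 : ℂ) 1) :
    ¬ IsLocalMax (fun x => (conj e * F x).re) z := by
  have ev : (fun x => (conj e * F x).re) =ᶠ[𝓝 z] fun x => (e.re * A x + e.im * B x).re := by
    filter_upwards [isOpen_ball.mem_nhds hz] with y hy using g.re_eq e hy
  rcases (g.ana e z hz).eventually_constant_or_nhds_le_map_nhds with h | h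
  · have h1 := (g.ana e).eqOn_of_preconnected_of_eventuallyEq analyticOnNhd_const
      (convex_ball 0 1).isPreconnected hz h
    have h2 : EqOn (fun x => (conj e * F x).re) (fun _ => (e.re * A z + e.im * B z).re)
        (closure (ball 0 1)) := EqOn.closure (fun y hy => (g.re_eq e hy).trans
          (congrArg re (h1 hy))) (g.cU e) continuous_const
    rw [closure_ball 0 one_ne_zero] at h2
    have h3 : ∀ ξ ∈ sphere (0 : ℂ) 1, (conj e * H ξ).re = (e.re * A z + e.im * B z).re :=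
      fun ξ hξ => by
        rw [← g.out ξ (mem_sphere_zero_iff_norm.1 hξ).ge]
        exact h2 (sphere_subset_closedBall hξ)
    have a := max_ball (by fun_prop) (fun y _ => H_nomax H he y) (fun ξ hξ => (h3 ξ hξ).le) z hz
    have b := max_ball (m := -(e.re * A z + e.im * B z).re) (by fun_prop)
      (fun y _ => H_nomax H (neg_ne_zero.2 he) y)
      (fun ξ hξ => by rw [map_neg, neg_mul, neg_re, h3 ξ hξ]) z hz
    rw [map_neg, neg_mul, neg_re] at b
    linarith
  · exact fun hm => nomax_of_le (f := fun x => (e.re * A x + e.im * B x).re)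
      ((isOpenMap_re.nhds_le _).trans (map_mono (m := re) h)) (hm.congr ev)

theorem homeo (hc : ∀ ζ ∈ sphere (0 : ℂ) 1, ∀ e : ℂ, e ≠ 0 → ∀ ε > 0,
    (∃ w ∈ H '' {y | 1 < ‖y‖}, dist w (H ζ) < ε ∧ 0 < (conj e * (w - H ζ)).re) ∨
      ∃ z ∈ ball (0 : ℂ) 1, dist z ζ < ε ∧ 0 < (conj e * (F z - H ζ)).re) :
    IsLocalHomeomorphOn F (ball 0 1) ∧ BijOn F (ball 0 1) (H '' ball 0 1) := by
  have nomax : ∀ e : ℂ, e ≠ 0 → ∀ z, ¬ IsLocalMax (fun x => (conj e * F x).re) z := by
    intro e he z hm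
    rcases lt_trichotomy ‖z‖ 1 with a | a | a
    · exact g.int_nomax he (mem_ball_zero_iff.2 a) hm
    · obtain ⟨δ, hδ, h1⟩ := Metric.eventually_nhds_iff.1 hm
      obtain ⟨ε, hε, h2⟩ := Metric.continuousAt_iff.1 (H.continuous.continuousAt (x := z)) 1 one_pos
      obtain ⟨η, hη, h3⟩ := Metric.continuousAt_iff.1 (H.symm.continuous.continuousAt (x := H z)) δ hδ
      rcases hc z (mem_sphere_zero_iff_norm.2 a) e he _ (lt_min hδ hη) with
        ⟨_, ⟨y, hy, rfl⟩, b, c⟩ | ⟨y, -, b, c⟩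
      · have := h1 (y := y) (by simpa using h3 (b.trans_le (min_le_right _ _)))
        simp only [g.out y (le_of_lt hy), g.out z a.ge] at this
        rw [mul_sub, sub_re] at c
        linarith
      · have := h1 (b.trans_le (min_le_left _ _))
        simp only [g.out z a.ge] at this
        rw [mul_sub, sub_re] at c
        linarith
    · refine H_nomax H he z (hm.congr ?_)
      filter_upwards [(isOpen_lt continuous_const continuous_norm).mem_nhds a] with y hy
      rw [g.out y (le_of_lt hy)]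
  have loc : IsLocalHomeomorphOn F (ball 0 1) := by
    refine IsLocalHomeomorphOn.mk _ _ fun z hz => ?_
    have dA := (g.hA z hz).hasStrictDerivAt
    have dB := (g.hB z hz).hasStrictDerivAt
    have nz : ∀ e : ℂ, e ≠ 0 → e.re * deriv A z + e.im * deriv B z ≠ 0 := fun e he => by
      rw [← ((dA.hasDerivAt.const_mul (e.re : ℂ)).fun_add
        (dB.hasDerivAt.const_mul (e.im : ℂ))).deriv]
      refine no_saddle (g.cU e) (nomax e he) (fun y => ?_)
        (H.trans (Homeomorph.mulLeft₀ (conj e) ((map_ne_zero _).2 he)))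
        (fun y hy => by rw [g.out y hy]; rfl) (g.ana e z hz) ?_
      · simpa only [map_neg, neg_mul, neg_re] using nomax (-e) (neg_ne_zero.2 he) y
      · filter_upwards [isOpen_ball.mem_nhds hz] with y hy using g.re_eq e hy
    have lift : ∀ {C : ℂ → ℂ} {c : ℂ}, HasStrictDerivAt C c z →
        HasStrictFDerivAt (fun y => ((C y).re : ℂ)) ((ofRealCLM.comp reCLM).comp
          ((ContinuousLinearMap.toSpanSingleton ℂ c).restrictScalars ℝ)) z := fun h =>
      (ofRealCLM.comp reCLM).hasStrictFDerivAt.comp z (h.hasStrictFDerivAt.restrictScalars ℝ)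
    obtain ⟨L, hL, eL⟩ : ∃ L : ℂ →L[ℝ] ℂ, HasStrictFDerivAt F L z ∧
        ∀ v, L v = (v * deriv A z).re + (v * deriv B z).re * I := by
      refine ⟨_, ((lift dA).fun_add ((lift dB).mul_const I)).congr_of_eventuallyEq ?_, fun v => ?_⟩
      · filter_upwards [isOpen_ball.mem_nhds hz] with y hy using (g.inn y hy).symm
      · simp [mul_comm]
    have inj : Function.Injective (L : ℂ →ₗ[ℝ] ℂ) := by
      rw [injective_iff_map_eq_zero]
      intro v hv
      by_contra v0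
      have h1 : (v * deriv A z).re = 0 := by
        have := congrArg re ((eL v).symm.trans hv)
        rwa [add_re, ofReal_re, re_ofReal_mul, I_re, mul_zero, add_zero] at this
      have h2 : (v * deriv B z).re = 0 := by simpa [eL, -mul_re] using congrArg im (hv : L v = 0)
      by_cases h3 : (v * deriv A z).im = 0
      · exact mul_ne_zero v0 (by simpa using nz 1 one_ne_zero) (Complex.ext h1 h3)
      · refine mul_ne_zero v0 (nz ⟨-(v * deriv B z).im, (v * deriv A z).im⟩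
          fun a => h3 (congrArg im a)) ?_
        rw [mul_add, mul_left_comm, mul_left_comm v]
        apply Complex.ext
        · rw [add_re, re_ofReal_mul, re_ofReal_mul, h1, h2]; simp
        · rw [add_im, im_ofReal_mul, im_ofReal_mul]; simp [-mul_im, mul_comm]
    have hL' : HasStrictFDerivAt F
        ((LinearEquiv.ofInjectiveEndo _ inj).toContinuousLinearEquiv : ℂ →L[ℝ] ℂ) z := hL
    exact ⟨hL'.toOpenPartialHomeomorph F, hL'.mem_toOpenPartialHomeomorph_source, fun _ _ => rfl⟩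
  have bij := cover (G := H.symm ∘ F) (H.symm.continuous.comp g.cont)
    (fun z hz => by simp [g.out z hz])
    ((H.symm.isLocalHomeomorph.isLocalHomeomorphOn (s := univ)).comp loc (mapsTo_univ _ _))
  refine ⟨loc, (H.injective.injOn.bijOn_image.comp bij).congr fun z _ => by simp⟩

theorem crit {ζ : ℂ} (hζ : ζ ∈ sphere (0 : ℂ) 1)
    (hb : (∃ e : ℂ, e ≠ 0 ∧ ∀ ξ ∈ sphere (0 : ℂ) 1, (conj e * (H ξ - H ζ)).re ≤ 0) ∨
      ∃ ε > 0, ∀ z ∈ ball (0 : ℂ) 1, dist z ζ < ε → F z ∈ H '' closedBall 0 1)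
    {e : ℂ} (he : e ≠ 0) {ε : ℝ} (hε : 0 < ε) :
    (∃ w ∈ H '' {y | 1 < ‖y‖}, dist w (H ζ) < ε ∧ 0 < (conj e * (w - H ζ)).re) ∨
      ∃ z ∈ ball (0 : ℂ) 1, dist z ζ < ε ∧ 0 < (conj e * (F z - H ζ)).re := by
  by_contra hn
  push Not at hn
  obtain ⟨hE, hD⟩ := hn
  simp only [mul_sub, sub_re, sub_nonpos] at hE hD hb
  have n1 := mem_sphere_zero_iff_norm.1 hζ
  have st : ∀ z ∈ ball (0 : ℂ) 1, dist z ζ < ε → (conj e * F z).re < (conj e * H ζ).re :=
    fun z hz h => lt_of_le_of_ne (hD z hz h) fun a => g.int_nomax he hz (by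
      filter_upwards [isOpen_ball.mem_nhds hz, isOpen_ball.mem_nhds (mem_ball.2 h)] with y b c
      exact (hD y b c).trans_eq a.symm)
  have cl : ball ζ ε ∩ closedBall 0 1 ⊆ closure (ball ζ ε ∩ ball 0 1) := by
    rw [← closure_ball (0 : ℂ) one_ne_zero]
    exact isOpen_ball.inter_closure
  rcases hb with ⟨e₀, he₀, h0⟩ | ⟨ε', hε', h1⟩
  · obtain ⟨z, hz1, hz2⟩ := (closure_nonempty_iff.1
      ⟨ζ, cl ⟨mem_ball_self hε, sphere_subset_closedBall hζ⟩⟩ : (ball ζ ε ∩ ball 0 1).Nonempty)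
    have a1 := max_ball (g.cU e₀) (fun y hy => g.int_nomax he₀ hy) (fun ξ hξ => by
      rw [g.out ξ (mem_sphere_zero_iff_norm.1 hξ).ge]; exact h0 ξ hξ) z hz2
    have a2 := max_ball (by fun_prop) (fun y _ => H_nomax H he₀ y) h0
    have a3 := st z hz2 hz1
    have t : Tendsto (fun s : ℝ => H ζ + s * (H ζ - F z)) (𝓝[>] 0) (𝓝 (H ζ)) :=
      tendsto_nhdsWithin_of_tendsto_nhds (Continuous.tendsto' (by fun_prop) _ _ (by simp))
    obtain ⟨s, b, s0⟩ := ((t.eventually (ball_mem_nhds _ hε)).and self_mem_nhdsWithin).exists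
    have ex : ∀ e : ℂ, (conj e * (H ζ + s * (H ζ - F z))).re =
        (conj e * H ζ).re + s * ((conj e * H ζ).re - (conj e * F z).re) := fun e => by
      rw [mul_add, mul_left_comm, add_re, re_ofReal_mul, mul_sub, sub_re]
    obtain ⟨y, hy⟩ := H.surjective (H ζ + s * (H ζ - F z))
    have p0 := mul_pos (show 0 < s from s0) (sub_pos.2 a1)
    have p1 := mul_pos (show 0 < s from s0) (sub_pos.2 a3)
    have y1 : 1 < ‖y‖ := by
      have := ex e₀
      rw [← hy] at this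
      rcases lt_trichotomy ‖y‖ 1 with c | c | c
      · linarith [a2 y (mem_ball_zero_iff.2 c)]
      · linarith only [h0 y (mem_sphere_zero_iff_norm.2 c), p0, this]
      · exact c
    have := hE _ ⟨y, y1, hy⟩ b
    rw [ex] at this
    linarith
  · obtain ⟨ρ, hρ⟩ : ∃ ρ, ρ = min ε ε' := ⟨_, rfl⟩
    have ρ0 : 0 < ρ := hρ ▸ lt_min hε hε'
    have cap : ∀ z : ℂ, ‖z‖ < 1 → 1 - ρ ^ 2 / 2 ≤ (z / ζ).re → dist z ζ < ρ := fun z a b => by
      have ζ0 : ζ ≠ 0 := norm_ne_zero_iff.1 (by rw [n1]; exact one_ne_zero)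
      have c : dist z ζ = ‖z / ζ - 1‖ := by
        rw [div_sub_one ζ0, norm_div, n1, div_one, dist_eq_norm]
      have d : ‖z / ζ‖ ^ 2 < 1 := by
        rw [norm_div, n1, div_one]
        nlinarith only [norm_nonneg z, a]
      refine lt_of_pow_lt_pow_left₀ 2 ρ0.le ?_
      rw [Complex.sq_norm, normSq_apply] at d
      rw [c, Complex.sq_norm, normSq_apply, sub_re, sub_im, one_re, one_im]
      linarith only [b, d]
    have r1 : ρ ≤ ε := hρ ▸ min_le_left _ _
    have r2 : ρ ≤ ε' := hρ ▸ min_le_right _ _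
    have ls := loc_surj (G := H.symm ∘ F) (H.symm.continuous.comp g.cont)
      (fun z hz => by simp [g.out z hz]) n1 (δ := ρ ^ 2 / 2) (by positivity) fun z a b => by
        have c := cap z a b.ge
        obtain ⟨y, hy, d⟩ := h1 z (mem_ball_zero_iff.2 a) (c.trans_le r2)
        refine ⟨by simpa only [Function.comp_apply, ← d, Homeomorph.symm_apply_apply, mem_closedBall, dist_zero_right] using hy, fun f => ?_⟩
        have := st z (mem_ball_zero_iff.2 a) (c.trans_le r1)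
        rw [H.symm_apply_eq.1 f] at this
        exact lt_irrefl _ this
    refine H_nomax H he ζ ?_
    filter_upwards [ls, ball_mem_nhds ζ hε,
      H.continuous.continuousAt.preimage_mem_nhds (ball_mem_nhds (H ζ) hε)] with w a b c
    rcases lt_trichotomy ‖w‖ 1 with d | d | d
    · obtain ⟨z, z1, z2, z3⟩ := a d
      rw [← H.symm_apply_eq.1 z3]
      exact hD z (mem_ball_zero_iff.2 z1) ((cap z z1 z2).trans_le r1)
    · rw [← g.out w d.ge]
      exact closure_minimal (t := {x | (conj e * F x).re ≤ (conj e * H ζ).re})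
        (fun x hx => hD x hx.2 hx.1) (isClosed_le (g.cU e) continuous_const)
        (cl ⟨b, mem_closedBall_zero_iff.2 d.le⟩)
    · exact hE _ ⟨w, d, rfl⟩ c

end Glue

end Pool.Agent.MP_0af9a5_an

end
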